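import Mathlib
import Pool.Agent.Work.MP_a8c71c_co.Comp

/-!
The induced saturation number of the four-dimensional Boolean lattice is at most `5 n - 3`, so the
conjectured formula with leading coefficient `2 ^ (k - 1) - 1` fails for `k = 4`.
-/

set_option autoImplicit false

namespace Pool.Agent.Results.MP_a8c71c_co.CubeFourFails

open Finset Pool.Agent.Work.MP_a8c71c_co

/-- The family `F` of subsets of `{0, ..., n-1}` contains an induced copy of the poset `P`. -/
def HasInducedCopy (P : Type) [PartialOrder P] {n : ℕ} (F : Finset (Finset (Fin n))) : Prop :=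
  ∃ f : P → Finset (Fin n), Function.Injective f ∧ (∀ x, f x ∈ F) ∧ ∀ x y, x ≤ y ↔ f x ⊆ f y

/-- `F` is `P`-saturated: no induced copy of `P`, and every further set creates one. -/
def IsSaturated (P : Type) [PartialOrder P] {n : ℕ} (F : Finset (Finset (Fin n))) : Prop :=
  ¬ HasInducedCopy P F ∧ ∀ S : Finset (Fin n), S ∉ F → HasInducedCopy P (insert S F)

/-- The induced saturation number: least size of a `P`-saturated family of subsets of an
`n`-element set. -/
noncomputable def satStar (n : ℕ) (P : Type) [PartialOrder P] : ℕ :=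
  sInf {m | ∃ F : Finset (Finset (Fin n)), IsSaturated P F ∧ F.card = m}

/-- The conjectured formula for `k`: there is a constant `c` such that
`satStar n Q_k = (2 ^ (k-1) - 1) n - c` for all large `n`; here `Q_k = Finset (Fin k)`, ordered by
inclusion. -/
def Formula (k : ℕ) : Prop :=
  ∃ c : ℤ, ∀ᶠ n : ℕ in Filter.atTop,
    (satStar n (Finset (Fin k)) : ℤ) = (2 ^ (k - 1) - 1) * n - c

/-- The members of small and of large size. -/
def ends (n : ℕ) : Finset (Finset (Fin n)) :=
  univ.filter (fun S => S.card ≤ 1 ∨ n ≤ S.card + 1)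

theorem ends_card (n : ℕ) : (ends n).card ≤ 2 * n + 2 := by
  classical
  have h : ends n ⊆ ({∅, univ} : Finset (Finset (Fin n))) ∪
      (univ.image (fun i : Fin n => ({i} : Finset (Fin n))) ∪
        univ.image (fun i : Fin n => ({i} : Finset (Fin n))ᶜ)) := by
    intro S hS
    simp only [ends, Finset.mem_filter, Finset.mem_univ, true_and] at hS
    simp only [Finset.mem_union, Finset.mem_insert, Finset.mem_singleton, Finset.mem_image,
      Finset.mem_univ, true_and]
    rcases hS with hS | hS
    · rcases Nat.le_one_iff_eq_zero_or_eq_one.1 hS with h0 | h1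
      · exact Or.inl (Or.inl (Finset.card_eq_zero.1 h0))
      · obtain ⟨a, ha⟩ := Finset.card_eq_one.1 h1
        exact Or.inr (Or.inl ⟨a, ha.symm⟩)
    · have hc : Sᶜ.card ≤ 1 := by
        rw [Finset.card_compl, Fintype.card_fin]; omega
      rcases Nat.le_one_iff_eq_zero_or_eq_one.1 hc with h0 | h1
      · refine Or.inl (Or.inr ?_)
        have := Finset.card_eq_zero.1 h0
        rwa [Finset.compl_eq_empty_iff] at this
      · obtain ⟨a, ha⟩ := Finset.card_eq_one.1 h1
        exact Or.inr (Or.inr ⟨a, by rw [← ha, compl_compl]⟩)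
  refine (Finset.card_le_card h).trans ((Finset.card_union_le _ _).trans ?_)
  have h1 : ({∅, univ} : Finset (Finset (Fin n))).card ≤ 2 := Finset.card_le_two
  have h2 := Finset.card_union_le (univ.image (fun i : Fin n => ({i} : Finset (Fin n))))
    (univ.image (fun i : Fin n => ({i} : Finset (Fin n))ᶜ))
  have h3 : (univ.image (fun i : Fin n => ({i} : Finset (Fin n)))).card ≤ n :=
    Finset.card_image_le.trans (by simp)
  have h4 : (univ.image (fun i : Fin n => ({i} : Finset (Fin n))ᶜ)).card ≤ n :=
    Finset.card_image_le.trans (by simp)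
  omega

theorem no_copy {n : ℕ} (M : Finset (Finset (Fin n))) (hM : TSat M) :
    ¬ HasInducedCopy (Finset (Fin 4)) (M ∪ ends n) := by
  classical
  rintro ⟨f, -, hF, hf⟩
  have hx : ∀ i : Fin 4, ∃ a, a ∈ f {i} ∧ a ∉ f ({i}ᶜ) := fun i => by
    have : ¬ f {i} ⊆ f ({i}ᶜ) := fun h => by
      have := (hf _ _).2 h
      simp at this
    exact Finset.not_subset.1 this
  choose x hx1 hx2 using hx
  have hin : ∀ (i : Fin 4) (A : Finset (Fin 4)), i ∈ A → x i ∈ f A := fun i A hi =>
    (hf {i} A).1 (by simpa using hi) (hx1 i)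
  have hout : ∀ (i : Fin 4) (A : Finset (Fin 4)), i ∉ A → x i ∉ f A := fun i A hi h =>
    hx2 i ((hf A {i}ᶜ).1 (by
      intro j hj
      simp only [Finset.mem_compl, Finset.mem_singleton]
      rintro rfl; exact hi hj) h)
  have hinj : Function.Injective x := fun i j hij => by
    by_contra hne
    exact hout j {i} (by simpa using fun h => hne h.symm) (hij ▸ hin i {i} (by simp))
  obtain ⟨P, hP, hn⟩ := hM.unfilled x
  have hiff : ∀ i, x i ∈ f P ↔ i ∈ P := fun i =>
    ⟨fun h => by_contra fun hi => hout i P hi h, hin i P⟩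
  rcases Finset.mem_union.1 (hF P) with h | h
  · exact hn ⟨f P, h, hiff⟩
  · simp only [ends, Finset.mem_filter, Finset.mem_univ, true_and] at h
    rcases h with h | h
    · have h1 : (P.image x) ⊆ f P := fun z hz => by
        obtain ⟨i, hi, rfl⟩ := Finset.mem_image.1 hz
        exact hin i P hi
      have h2 := Finset.card_le_card h1
      rw [Finset.card_image_of_injective _ hinj, hP] at h2
      omega
    · have h1 : (Pᶜ.image x) ⊆ (f P)ᶜ := fun z hz => by
        obtain ⟨i, hi, rfl⟩ := Finset.mem_image.1 hz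
        rw [Finset.mem_compl]
        exact hout i P (Finset.mem_compl.1 hi)
      have h2 := Finset.card_le_card h1
      rw [Finset.card_image_of_injective _ hinj, Finset.card_compl, Finset.card_compl, hP,
        Fintype.card_fin, Fintype.card_fin] at h2
      omega

theorem copy_of_blocked {n : ℕ} (M : Finset (Finset (Fin n))) (S : Finset (Fin n))
    (hB : Blocked M S) : HasInducedCopy (Finset (Fin 4)) (insert S (M ∪ ends n)) := by
  classical
  obtain ⟨x, P, hP, hS, hR⟩ := hB
  have hg : ∀ A : Finset (Fin 4), ∃ T : Finset (Fin n), A.card = 2 →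
      T ∈ insert S (M ∪ ends n) ∧ ∀ i, x i ∈ T ↔ i ∈ A := fun A => by
    by_cases hA : A = P
    · exact ⟨S, fun _ => ⟨by simp, by rw [hA]; exact hS⟩⟩
    · by_cases h2 : A.card = 2
      · obtain ⟨T, hT, h⟩ := hR A h2 hA
        exact ⟨T, fun _ => ⟨by simp [hT], h⟩⟩
      · exact ⟨∅, fun h => absurd h h2⟩
  choose g hg using hg
  have hinj : Function.Injective x := fun i j hij => by
    by_contra hne
    obtain ⟨A, hA, hi, hj⟩ : ∃ A : Finset (Fin 4), A.card = 2 ∧ i ∈ A ∧ j ∉ A := by
      revert hne; clear hij; revert i j; decide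
    exact hj (((hg A hA).2 j).1 (hij ▸ ((hg A hA).2 i).2 hi))
  set f : Finset (Fin 4) → Finset (Fin n) := fun A =>
    if A.card = 2 then g A else if A.card ≤ 1 then A.image x else (Aᶜ.image x)ᶜ with hfdef
  have hprop : ∀ (A : Finset (Fin 4)) (i : Fin 4), x i ∈ f A ↔ i ∈ A := fun A i => by
    by_cases h2 : A.card = 2
    · simp only [hfdef, if_pos h2]; exact (hg A h2).2 i
    · by_cases h1 : A.card ≤ 1
      · simp only [hfdef, if_neg h2, if_pos h1, Finset.mem_image]
        exact ⟨fun ⟨j, hj, hji⟩ => hinj hji ▸ hj, fun h => ⟨i, h, rfl⟩⟩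
      · simp only [hfdef, if_neg h2, if_neg h1, Finset.mem_compl, Finset.mem_image, not_exists,
          not_and]
        exact ⟨fun h => by_contra fun hi => h i hi rfl, fun h j hj hji => hj (hinj hji ▸ h)⟩
  have hmono : ∀ A B : Finset (Fin 4), A ⊆ B → f A ⊆ f B := fun A B hAB => by
    by_cases hA1 : A.card ≤ 1
    · have hA2 : A.card ≠ 2 := by omega
      intro z hz
      simp only [hfdef, if_neg hA2, if_pos hA1, Finset.mem_image] at hz
      obtain ⟨i, hi, rfl⟩ := hz
      exact (hprop B i).2 (hAB hi)
    · by_cases hB3 : 3 ≤ B.card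
      · have hB2 : B.card ≠ 2 := by omega
        have hB1 : ¬ B.card ≤ 1 := by omega
        intro z hz
        simp only [hfdef, if_neg hB2, if_neg hB1, Finset.mem_compl, Finset.mem_image, not_exists,
          not_and]
        rintro i hi rfl
        exact hi (hAB ((hprop A i).1 hz))
      · have : A = B := Finset.eq_of_subset_of_card_le hAB (by omega)
        rw [this]
  have hiff : ∀ A B : Finset (Fin 4), A ≤ B ↔ f A ⊆ f B := fun A B =>
    ⟨hmono A B, fun h i hi => (hprop B i).1 (h ((hprop A i).2 hi))⟩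
  refine ⟨f, fun A B hAB => ?_, fun A => ?_, hiff⟩
  · exact le_antisymm ((hiff A B).2 hAB.le) ((hiff B A).2 hAB.ge)
  · by_cases h2 : A.card = 2
    · simp only [hfdef, if_pos h2]; exact (hg A h2).1
    · refine Finset.mem_insert_of_mem (Finset.mem_union_right _ ?_)
      simp only [ends, Finset.mem_filter, Finset.mem_univ, true_and]
      by_cases h1 : A.card ≤ 1
      · left
        simp only [hfdef, if_neg h2, if_pos h1]
        exact Finset.card_image_le.trans h1
      · right
        simp only [hfdef, if_neg h2, if_neg h1]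
        have h3 : (Aᶜ.image x).card ≤ 1 := Finset.card_image_le.trans (by
          rw [Finset.card_compl, Fintype.card_fin]; omega)
        rw [Finset.card_compl, Fintype.card_fin]
        omega

theorem exists_saturated {n : ℕ} (hn : 4 ≤ n) :
    ∃ F : Finset (Finset (Fin n)), IsSaturated (Finset (Fin 4)) F ∧ F.card ≤ 5 * n - 3 := by
  classical
  obtain ⟨m, ⟨M, hM, hc⟩, hm⟩ := exists_tsat n hn
  refine ⟨M ∪ ends n, ⟨no_copy M hM, fun S hS => copy_of_blocked M S ?_⟩, ?_⟩
  · have h1 : S ∉ M := fun h => hS (Finset.mem_union_left _ h)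
    have h2 : S ∉ ends n := fun h => hS (Finset.mem_union_right _ h)
    simp only [ends, Finset.mem_filter, Finset.mem_univ, true_and, not_or] at h2
    exact hM.blocked S (by omega) (by rw [Fintype.card_fin]; omega) h1
  · have h1 := Finset.card_union_le M (ends n)
    have h2 := ends_card n
    omega

theorem satStar_four_le {n : ℕ} (hn : 4 ≤ n) : satStar n (Finset (Fin 4)) ≤ 5 * n - 3 := by
  obtain ⟨F, hF, hc⟩ := exists_saturated hn
  have h0 : satStar n (Finset (Fin 4)) ≤ F.card := Nat.sInf_le ⟨F, hF, rfl⟩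
  omega

theorem not_formula_four : ¬ Formula 4 := by
  rintro ⟨c, hc⟩
  obtain ⟨N, hN⟩ := Filter.eventually_atTop.1 hc
  set n : ℕ := N + c.natAbs + 4 with hn
  have h1 := hN n (by omega)
  have h2 : satStar n (Finset (Fin 4)) ≤ 5 * n - 3 := satStar_four_le (by omega)
  norm_num at h1
  have h3 : (c : ℤ) ≤ c.natAbs := Int.le_natAbs
  omega

theorem result :
    (∀ n : ℕ, 4 ≤ n → ∃ F : Finset (Finset (Fin n)),
      IsSaturated (Finset (Fin 4)) F ∧ F.card ≤ 5 * n - 3) ∧
    ¬ Formula 4 ∧ ¬ (∀ k : ℕ, 3 ≤ k → Formula k) :=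
  ⟨fun _ hn => exists_saturated hn, not_formula_four, fun h => not_formula_four (h 4 (by norm_num))⟩

end Pool.Agent.Results.MP_a8c71c_co.CubeFourFails
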